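import Pool.Agent.Lib.MP_0a5adf_nt.EXP.Base

/-!
# Two Cauchy-Schwarz steps (section 3 of the paper)
-/

set_option autoImplicit false

namespace Pool.Agent.Lib.MP_0a5adf_nt.EXP.H73

open Finset

/-- Cauchy-Schwarz for the number of coincidences of two maps. -/
lemma coin {A B G : Type} [DecidableEq G] (s : Finset A) (t : Finset B) (u : A → G) (v : B → G) :
    (#{q ∈ s ×ˢ t | u q.1 = v q.2}) ^ 2 ≤
      #{q ∈ s ×ˢ s | u q.1 = u q.2} * #{q ∈ t ×ˢ t | v q.1 = v q.2} := by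
  classical
  set K := s.image u ∪ t.image v with hK
  have key : ∀ (X Y : Type) (p : Finset X) (r : Finset Y) (x : X → G) (y : Y → G),
      p.image x ⊆ K →
      #{q ∈ p ×ˢ r | x q.1 = y q.2} = ∑ z ∈ K, #{a ∈ p | x a = z} * #{b ∈ r | y b = z} := by
    intro X Y p r x y hp
    have h1 : ∀ z ∈ K, #{a ∈ p | x a = z} * #{b ∈ r | y b = z} =
        #{q ∈ {q ∈ p ×ˢ r | x q.1 = y q.2} | x q.1 = z} := by
      intro z _
      rw [← card_product]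
      congr 1
      ext ⟨a, b⟩
      simp only [mem_product, mem_filter]
      constructor
      · rintro ⟨⟨ha, hz⟩, hb, hz'⟩
        exact ⟨⟨⟨ha, hb⟩, hz.trans hz'.symm⟩, hz⟩
      · rintro ⟨⟨⟨ha, hb⟩, h⟩, hz⟩
        exact ⟨⟨ha, hz⟩, hb, h.symm.trans hz⟩
    rw [sum_congr rfl h1]
    apply card_eq_sum_card_fiberwise
    intro q hq
    have hq' : q ∈ {q ∈ p ×ˢ r | x q.1 = y q.2} := hq
    rw [mem_filter, mem_product] at hq'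
    exact hp (mem_image_of_mem x hq'.1.1)
  rw [key A B s t u v subset_union_left, key A A s s u u subset_union_left,
    key B B t t v v subset_union_right]
  have := sum_mul_sq_le_sq_mul_sq K (fun z => #{a ∈ s | u a = z}) (fun z => #{b ∈ t | v b = z})
  simpa [sq] using this

/-- The number of additive quadruples of two maps. -/
lemma two {W G : Type} [DecidableEq W] [AddCommGroup G] [DecidableEq G] (s t : Finset W)
    (u v : W → G) :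
    (#{q ∈ (s ×ˢ t) ×ˢ (s ×ˢ t) | u q.1.1 + v q.1.2 = u q.2.1 + v q.2.2}) ^ 2 ≤
      #{q ∈ quad s | u q.1 + u q.2.1 = u q.2.2.1 + u q.2.2.2} *
      #{q ∈ quad t | v q.1 + v q.2.1 = v q.2.2.1 + v q.2.2.2} := by
  have h1 : #{q ∈ (s ×ˢ t) ×ˢ (s ×ˢ t) | u q.1.1 + v q.1.2 = u q.2.1 + v q.2.2} ≤
      #{q ∈ (s ×ˢ s) ×ˢ (t ×ˢ t) | (fun p : W × W => u p.1 - u p.2) q.1 =
        (fun p : W × W => v p.2 - v p.1) q.2} := by
    apply card_le_card_of_injOn (fun q => ((q.1.1, q.2.1), (q.1.2, q.2.2)))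
    · rintro ⟨⟨a, b⟩, ⟨c, d⟩⟩ hq
      simp only [coe_filter, mem_product, Set.mem_ofPred_eq] at hq ⊢
      obtain ⟨⟨⟨ha, hb⟩, hc, hd⟩, h⟩ := hq
      refine ⟨⟨⟨ha, hc⟩, hb, hd⟩, ?_⟩
      rw [sub_eq_sub_iff_add_eq_add, h, add_comm]
    · rintro ⟨⟨a, b⟩, ⟨c, d⟩⟩ _ ⟨⟨a', b'⟩, ⟨c', d'⟩⟩ _ h
      simp only [Prod.mk.injEq] at h ⊢
      tauto
  have h2 : ∀ (r : Finset W) (w : W → G),
      #{q ∈ (r ×ˢ r) ×ˢ (r ×ˢ r) | (fun p : W × W => w p.1 - w p.2) q.1 =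
        (fun p : W × W => w p.1 - w p.2) q.2} ≤
      #{q ∈ quad r | w q.1 + w q.2.1 = w q.2.2.1 + w q.2.2.2} := by
    intro r w
    apply card_le_card_of_injOn (fun q => (q.1.1, q.2.2, q.2.1, q.1.2))
    · rintro ⟨⟨a, b⟩, ⟨c, d⟩⟩ hq
      simp only [coe_filter, mem_product, Set.mem_ofPred_eq, quad] at hq ⊢
      obtain ⟨⟨⟨ha, hb⟩, hc, hd⟩, h⟩ := hq
      refine ⟨⟨ha, hd, hc, hb⟩, ?_⟩
      rw [sub_eq_sub_iff_add_eq_add] at h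
      rw [h]
    · rintro ⟨⟨a, b⟩, ⟨c, d⟩⟩ _ ⟨⟨a', b'⟩, ⟨c', d'⟩⟩ _ h
      simp only [Prod.mk.injEq] at h ⊢
      tauto
  have h3 : ∀ (r : Finset W) (w : W → G),
      #{q ∈ (r ×ˢ r) ×ˢ (r ×ˢ r) | (fun p : W × W => w p.2 - w p.1) q.1 =
        (fun p : W × W => w p.2 - w p.1) q.2} ≤
      #{q ∈ quad r | w q.1 + w q.2.1 = w q.2.2.1 + w q.2.2.2} := by
    intro r w
    apply card_le_card_of_injOn (fun q => (q.1.2, q.2.1, q.2.2, q.1.1))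
    · rintro ⟨⟨a, b⟩, ⟨c, d⟩⟩ hq
      simp only [coe_filter, mem_product, Set.mem_ofPred_eq, quad] at hq ⊢
      obtain ⟨⟨⟨ha, hb⟩, hc, hd⟩, h⟩ := hq
      refine ⟨⟨hb, hc, hd, ha⟩, ?_⟩
      rw [sub_eq_sub_iff_add_eq_add] at h
      rw [h]
    · rintro ⟨⟨a, b⟩, ⟨c, d⟩⟩ _ ⟨⟨a', b'⟩, ⟨c', d'⟩⟩ _ h
      simp only [Prod.mk.injEq] at h ⊢
      tauto
  have h4 := coin (s ×ˢ s) (t ×ˢ t) (fun p : W × W => u p.1 - u p.2)
    (fun p : W × W => v p.2 - v p.1)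
  exact ((Nat.pow_le_pow_left h1 2).trans h4).trans (Nat.mul_le_mul (h2 s u) (h3 t v))

/-- CS: section 3 of the paper. -/
theorem cs : CsStatement := by
  intro W G _ _ _ C f g
  have h1 : #{q ∈ C 0 ×ˢ C 1 ×ˢ C 2 ×ˢ C 3 |
        f 0 q.1 + f 1 q.2.1 + f 2 q.2.2.1 + f 3 q.2.2.2 = g} ≤
      #{q ∈ (C 0 ×ˢ C 1) ×ˢ (C 2 ×ˢ C 3) | (fun p : W × W => f 0 p.1 + f 1 p.2) q.1 =
        (fun p : W × W => g - (f 2 p.1 + f 3 p.2)) q.2} := by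
    apply card_le_card_of_injOn (fun q => ((q.1, q.2.1), (q.2.2.1, q.2.2.2)))
    · rintro ⟨a, b, c, d⟩ hq
      simp only [coe_filter, mem_product, Set.mem_ofPred_eq] at hq ⊢
      obtain ⟨⟨ha, hb, hc, hd⟩, h⟩ := hq
      refine ⟨⟨⟨ha, hb⟩, hc, hd⟩, ?_⟩
      rw [← h]; abel
    · rintro ⟨a, b, c, d⟩ _ ⟨a', b', c', d'⟩ _ h
      simp only [Prod.mk.injEq] at h ⊢
      tauto
  have h2 : #{q ∈ (C 2 ×ˢ C 3) ×ˢ (C 2 ×ˢ C 3) |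
        (fun p : W × W => g - (f 2 p.1 + f 3 p.2)) q.1 =
        (fun p : W × W => g - (f 2 p.1 + f 3 p.2)) q.2} =
      #{q ∈ (C 2 ×ˢ C 3) ×ˢ (C 2 ×ˢ C 3) | f 2 q.1.1 + f 3 q.1.2 = f 2 q.2.1 + f 3 q.2.2} := by
    congr 1
    apply filter_congr
    intro q _
    exact sub_right_inj
  have h3 := coin (C 0 ×ˢ C 1) (C 2 ×ˢ C 3) (fun p : W × W => f 0 p.1 + f 1 p.2)
    (fun p : W × W => g - (f 2 p.1 + f 3 p.2))
  rw [h2] at h3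
  have h4 := two (C 0) (C 1) (f 0) (f 1)
  have h5 := two (C 2) (C 3) (f 2) (f 3)
  rw [Fin.prod_univ_four]
  calc _ ≤ (#{q ∈ (C 0 ×ˢ C 1) ×ˢ (C 2 ×ˢ C 3) | (fun p : W × W => f 0 p.1 + f 1 p.2) q.1 =
        (fun p : W × W => g - (f 2 p.1 + f 3 p.2)) q.2}) ^ 4 := Nat.pow_le_pow_left h1 4
    _ = ((#{q ∈ (C 0 ×ˢ C 1) ×ˢ (C 2 ×ˢ C 3) | (fun p : W × W => f 0 p.1 + f 1 p.2) q.1 =
        (fun p : W × W => g - (f 2 p.1 + f 3 p.2)) q.2}) ^ 2) ^ 2 := by rw [← pow_mul]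
    _ ≤ _ := Nat.pow_le_pow_left h3 2
    _ = _ := mul_pow _ _ 2
    _ ≤ _ := Nat.mul_le_mul h4 h5
    _ = _ := by ring

end Pool.Agent.Lib.MP_0a5adf_nt.EXP.H73
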